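import Pool.Agent.helper78.HFN.Spec

/-!
# Project HFN, row IND: induction
-/

set_option autoImplicit false

open Polynomial Module

namespace Pool.Agent.HFN

noncomputable section

theorem IND (hONE : ONE_stmt) (hTWO : TWO_stmt) (hDIM : DIM_stmt) : IND_stmt := by
  intro Z κ hκ G1 G2 p q m n h1 h2 hrel hG1 hG2 hp hq
  have hone : ∀ k : ℕ, hd (JJ Z κ) m n + k * (n + 1) ≤ hd (JJ Z κ) (m + k) n := by
    intro k
    induction k with
    | zero => simp
    | succ k ih =>
      have h3 := hONE (JJ Z κ) G1 G2 p q (m + k) n h1 h2 hrel hG1 hG2 (by omega) hq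
      calc hd (JJ Z κ) m n + (k + 1) * (n + 1) = hd (JJ Z κ) m n + k * (n + 1) + (n + 1) := by ring
        _ ≤ hd (JJ Z κ) (m + k) n + (n + 1) := Nat.add_le_add_right ih _
        _ ≤ hd (JJ Z κ) (m + (k + 1)) n := h3
  have htwo : ∀ M : ℕ, m ≤ M → ∀ l : ℕ, hd (JJ Z κ) M n + l * (M + 1) ≤ hd (JJ Z κ) M (n + l) := by
    intro M hM l
    induction l with
    | zero => simp
    | succ l ih =>
      have h3 := hTWO (JJ Z κ) G1 G2 p q M (n + l) h1 h2 hrel hG1 hG2 (by omega) (by omega)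
      calc hd (JJ Z κ) M n + (l + 1) * (M + 1) = hd (JJ Z κ) M n + l * (M + 1) + (M + 1) := by ring
        _ ≤ hd (JJ Z κ) M (n + l) + (M + 1) := Nat.add_le_add_right ih _
        _ ≤ hd (JJ Z κ) M (n + (l + 1)) := h3
  have h4 := hone (2 * Z.card)
  have h5 := htwo (m + 2 * Z.card) (by omega) (2 * Z.card)
  have h6 := (hDIM Z κ hκ (m + 2 * Z.card) (n + 2 * Z.card)).2 (by omega) (by omega)
  have h7 : (m + 2 * Z.card + 1) * (n + 2 * Z.card + 1) =
      (m + 1) * (n + 1) + 2 * Z.card * (n + 1) + 2 * Z.card * (m + 2 * Z.card + 1) := by ring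
  rw [h7] at h6
  omega

end

end Pool.Agent.HFN
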